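import Pool.Agent.W559.Et.Stm5
import Pool.Agent.H920R2.Cy7

/-!
Project Et (helper559): permutations of the factors of a power of a smooth affine variety are
linear in etale coordinates near their fixed points.
-/

set_option autoImplicit false
set_option linter.unusedSectionVars false

open MvPolynomial AlgebraicGeometry CategoryTheory TensorProduct

universe u

namespace Pool.Agent.W382.Et.AffPerm

open Pool.Agent.W559.Mg Pool.Agent.W559.Et

section transfer

variable {k B L : Type u} [Field k] [CommRing B] [Algebra k B] [Field L]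
  [Algebra k L]

/-- From the image in a field to the algebra itself. -/
theorem ll_loclin (gB : B →ₐ[k] L) (hinj : Function.Injective gB) (ρ : B →ₐ[k] B)
    (τ : L →ₐ[k] L) (hτ : ∀ b, τ (gB b) = gB (ρ b)) (h : LL τ gB.range) : LocLin ρ := by
  classical
  intro q hq hqf
  let eqv : B ≃ₐ[k] gB.range := AlgEquiv.ofInjective gB hinj
  have heqv : ∀ b, ((eqv b : gB.range) : L) = gB b := fun b => rfl
  have hsymm : ∀ (b : B) (hb : gB b ∈ gB.range), eqv.symm ⟨gB b, hb⟩ = b := by
    intro b hb
    apply eqv.injective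
    rw [AlgEquiv.apply_symm_apply]
    exact Subtype.ext (heqv b).symm
  let q' : Ideal gB.range := q.comap (eqv.symm : gB.range →ₐ[k] B)
  have hq' : q'.IsPrime := Ideal.comap_isPrime _ q
  have hmem : ∀ (b : B) (hb : gB b ∈ gB.range), (⟨gB b, hb⟩ : gB.range) ∈ q' ↔ b ∈ q := by
    intro b hb
    change eqv.symm ⟨gB b, hb⟩ ∈ q ↔ b ∈ q
    rw [hsymm]
  obtain ⟨f, hf, hfq, hτf, m, x, T, het, hT⟩ := h q' hq' (by
    rintro c ⟨b, rfl⟩ hc
    have h1 : τ (gB b) - gB b = gB (ρ b - b) := by rw [hτ, map_sub]
    have h2 : (⟨τ (gB b) - gB b, hc⟩ : gB.range) = ⟨gB (ρ b - b), h1 ▸ hc⟩ :=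
      Subtype.ext h1
    change (⟨τ (gB b) - gB b, hc⟩ : gB.range) ∈ q'
    rw [h2, hmem]
    exact hqf b)
  have hf1 : ∃ f0, gB f0 = f := hf
  obtain ⟨f0, rfl⟩ := hf1
  replace hfq : f0 ∉ q := fun h0 => hfq ((hmem f0 hf).2 h0)
  have hρf : ρ f0 = f0 := hinj (by rw [← hτ, hτf])
  have hf00 : f0 ≠ 0 := by
    rintro rfl
    exact hfq q.zero_mem
  have hgf : gB f0 ≠ 0 := by
    intro h0
    exact hf00 (hinj (by rw [h0, map_zero]))
  -- common denominator
  have hx : ∀ i, ∃ n : ℕ, gB f0 ^ n * (x i : L) ∈ gB.range := fun i => (x i).2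
  choose nn hnn using hx
  let N : ℕ := ∑ i, nn i
  have hN : ∀ i, gB f0 ^ N * (x i : L) ∈ gB.range := by
    intro i
    have h1 : nn i ≤ N := Finset.single_le_sum (f := nn) (fun _ _ => Nat.zero_le _)
      (Finset.mem_univ i)
    have h2 : gB f0 ^ N * (x i : L) = gB f0 ^ (N - nn i) * (gB f0 ^ nn i * (x i : L)) := by
      rw [← mul_assoc, ← pow_add, Nat.sub_add_cancel h1]
    rw [h2]
    exact Subalgebra.mul_mem _ (Subalgebra.pow_mem _ hf _) (hnn i)
  choose y hy using hN
  have hy' : ∀ i, gB (y i) = gB f0 ^ N * (x i : L) := hy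
  refine ⟨f0, hfq, hρf, m, N, y, ?_, ?_⟩
  · -- the coordinates
    let C := gB.range
    let lcC := lc C (gB f0) hf
    let j : B →ₐ[k] lcC := (Subalgebra.inclusion (le_lc C (gB f0) hf)).comp
      (eqv : B →ₐ[k] gB.range)
    have hj : ∀ b, ((j b : lcC) : L) = gB b := fun b => rfl
    let _ : Algebra B lcC := j.toRingHom.toAlgebra
    have hmap : ∀ b : B, ((algebraMap B lcC b : lcC) : L) = gB b := fun b => rfl
    have _ : IsScalarTower k B lcC := IsScalarTower.of_algebraMap_eq fun r => (j.commutes r).symm
    have hloc : IsLocalization.Away f0 lcC := by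
      refine IsLocalization.Away.mk f0 ?_ ?_ ?_
      · refine IsUnit.of_mul_eq_one ⟨(gB f0)⁻¹, inv_mem_lc C (gB f0) _ hf
          (mul_inv_cancel₀ hgf)⟩ ?_
        apply Subtype.ext
        exact mul_inv_cancel₀ hgf
      · rintro ⟨g, n, b, hb⟩
        refine ⟨n, b, ?_⟩
        apply Subtype.ext
        change g * ((algebraMap B lcC f0 : lcC) : L) ^ n = gB b
        rw [hmap, mul_comm]
        exact hb.symm
      · intro a b hab
        refine ⟨0, ?_⟩
        have h3 : ((algebraMap B lcC a : lcC) : L) = ((algebraMap B lcC b : lcC) : L) :=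
          congrArg Subtype.val hab
        rw [hmap, hmap] at h3
        rw [hinj h3]
    let E : Localization.Away f0 ≃ₐ[B] lcC :=
      IsLocalization.algEquiv (Submonoid.powers f0) _ _
    have hcomp : (aeval fun i => algebraMap B (Localization.Away f0) (y i) *
          IsLocalization.Away.invSelf f0 ^ N :
        MvPolynomial (Fin m) k →ₐ[k] Localization.Away f0) =
        ((E.symm.restrictScalars k : lcC ≃ₐ[k] Localization.Away f0) :
          lcC →ₐ[k] Localization.Away f0).comp (aeval x) := by
      apply MvPolynomial.algHom_ext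
      intro i
      rw [aeval_X, AlgHom.comp_apply, aeval_X]
      change algebraMap B (Localization.Away f0) (y i) *
          IsLocalization.Away.invSelf f0 ^ N = E.symm (x i)
      apply E.injective
      rw [AlgEquiv.apply_symm_apply, map_mul, map_pow, AlgEquiv.commutes]
      have h1 : algebraMap B lcC f0 * E (IsLocalization.Away.invSelf f0) = 1 := by
        rw [← AlgEquiv.commutes E, ← map_mul, IsLocalization.Away.mul_invSelf, map_one]
      have h2 : gB f0 * ((E (IsLocalization.Away.invSelf f0) : lcC) : L) = 1 :=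
        congrArg Subtype.val h1
      apply Subtype.ext
      change ((algebraMap B lcC (y i) : lcC) : L) *
        ((E (IsLocalization.Away.invSelf f0) : lcC) : L) ^ N = (x i : L)
      rw [hmap, hy', mul_right_comm, ← mul_pow, h2, one_pow, one_mul]
    rw [hcomp]
    have h3 : (((E.symm.restrictScalars k : lcC ≃ₐ[k] Localization.Away f0) :
          lcC →ₐ[k] Localization.Away f0).comp
            (aeval x : MvPolynomial (Fin m) k →ₐ[k] lcC)).toRingHom =
        ((E.symm.restrictScalars k : lcC ≃ₐ[k] Localization.Away f0) :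
          lcC →ₐ[k] Localization.Away f0).toRingHom.comp
            (aeval x : MvPolynomial (Fin m) k →ₐ[k] lcC).toRingHom := rfl
    rw [h3]
    refine RingHom.Etale.stableUnderComposition _ _ het (RingHom.Etale.of_bijective ?_)
    exact E.symm.bijective
  · intro i
    have h1 := hT (Pi.single i 1)
    have h2 : ∑ l, (Pi.single i 1 : Fin m → k) l • ((x l : lc gB.range (gB f0) hf) : L) =
        (x i : L) := by
      rw [Finset.sum_eq_single i]
      · rw [Pi.single_eq_same, one_smul]
      · intro l _ hl
        rw [Pi.single_eq_of_ne hl, zero_smul]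
      · intro h
        exact absurd (Finset.mem_univ i) h
    rw [h2] at h1
    have h3 : ρ (y i) = ∑ l, T (Pi.single i 1) l • y l := by
      apply hinj
      rw [← hτ, hy', map_mul, map_pow, hτf, h1, map_sum, Finset.mul_sum]
      refine Finset.sum_congr rfl fun l _ => ?_
      rw [map_smul, hy', mul_smul_comm]
    rw [h3]
    exact Submodule.sum_mem _ fun l _ => Submodule.smul_mem _ _
      (Submodule.subset_span ⟨l, rfl⟩)

end transfer

open Pool.Agent.H920R2 in
theorem main (hP : PermStm.{u}) : AffPermStm.{u} := by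
  classical
  intro k A _ _ _ _ n _ hA σ π hσ
  have hjA := isCoprod_pi (k := k) (A := fun _ : Fin n => A)
  let B := ⨂[k] _ : Fin n, A
  let L := FractionRing B
  let gB : B →ₐ[k] L := IsScalarTower.toAlgHom k B L
  have hinj : Function.Injective gB := IsFractionRing.injective B L
  let τ : L ≃ₐ[k] L := IsFractionRing.fieldEquivOfAlgEquiv k L L σ
  have hτ : ∀ b, τ (gB b) = gB (σ b) := fun b =>
    IsFractionRing.fieldEquivOfAlgEquiv_algebraMap k L L σ b
  -- the fraction field
  let K := FractionRing A
  let gi : Fin n → A →ₐ[k] L := fun i =>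
    gB.comp (PiTensorProduct.singleAlgHom (R := k) (A := fun _ : Fin n => A) i)
  have hgi : ∀ i, Function.Injective (gi i) := fun i => hinj.comp (single_injective i)
  let e : Fin n → K →ₐ[k] L := fun i => IsFractionRing.liftAlgHom (g := gi i) (hgi i)
  have he : ∀ i a, e i (algebraMap A K a) = gi i a := fun i a =>
    IsFractionRing.lift_algebraMap (hgi i) a
  obtain ⟨g, hg⟩ := (isCoprod_pi (k := k) (A := fun _ : Fin n => K)).lift L e
  have hginj : Function.Injective g := inj_frac K gB hinj e he g hg
  have hτe : ∀ i x, τ (e i x) = e (π i) x := by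
    intro i x
    obtain ⟨a, c, -, rfl⟩ := IsFractionRing.div_surjective (A := A) x
    have h1 : ∀ a, τ (e i (algebraMap A K a)) = e (π i) (algebraMap A K a) := by
      intro a
      rw [he, he]
      have h6 := hτ (PiTensorProduct.singleAlgHom (R := k) (A := fun _ : Fin n => A) i a)
      rw [hσ] at h6
      exact h6
    rw [map_div₀, map_div₀, h1, h1, map_div₀]
  let A' : Subalgebra k K := (IsScalarTower.toAlgHom k A K).range
  have hA' : Algebra.Smooth k A' := Algebra.Smooth.of_equiv
    (AlgEquiv.ofInjective (IsScalarTower.toAlgHom k A K) (IsFractionRing.injective A K))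
  have hLL := hP k K L n e g hg hginj (τ : L →ₐ[k] L) π hτe A' hA'
  have hrange : TT e (fun _ => A') = gB.range := by
    apply le_antisymm
    · refine TT_le e _ _ ?_
      rintro i _ ⟨a, rfl⟩
      exact ⟨_, (he i a).symm⟩
    · rintro _ ⟨z, rfl⟩
      have h2 : z ∈ Algebra.adjoin k (⋃ i, Set.range
          (PiTensorProduct.singleAlgHom (R := k) (A := fun _ : Fin n => A) i)) := by
        rw [coprod_adjoin hjA]; trivial
      change gB z ∈ _
      induction h2 using Algebra.adjoin_induction with
      | mem x hx =>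
        obtain ⟨i, a, rfl⟩ := Set.mem_iUnion.1 hx
        have h3 : gB (PiTensorProduct.singleAlgHom (R := k) (A := fun _ : Fin n => A) i a) =
          e i (algebraMap A K a) := (he i a).symm
        rw [h3]
        exact e_mem_TT e (fun _ => A') i ⟨a, rfl⟩
      | algebraMap r => rw [AlgHom.commutes]; exact Subalgebra.algebraMap_mem _ r
      | add x y _ _ hx hy => rw [map_add]; exact Subalgebra.add_mem _ hx hy
      | mul x y _ _ hx hy => rw [map_mul]; exact Subalgebra.mul_mem _ hx hy
  rw [hrange] at hLL
  exact ll_loclin gB hinj (σ : B →ₐ[k] B) (τ : L →ₐ[k] L) hτ hLL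

end Pool.Agent.W382.Et.AffPerm
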